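import Pool.Agent.H28.JP.Defs

set_option autoImplicit false

/-!
# CR: corner rigidity, definitions
-/

universe u

open Filter Topology H80VN Pool.Agent.H68.Amp Pool.Agent.H28.JP

namespace Pool.Agent.H28.CR

/-- Every nonzero (not necessarily unital) ⋆-homomorphism `N → N^ω` is `x ↦ u x u⋆` with a unitary
`u ∈ N^ω`. -/
def AllConj {N : Type u} [CStarAlgebra N] {ρ : N →ₗ[ℂ] ℂ} (h : Stmt.IsTracialVN ρ)
    (ω : Filter ℕ) : Prop :=
  ∀ θ : N →⋆ₙₐ[ℂ] UPow h ω, (∃ x, θ x ≠ 0) →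
    ∃ u ∈ unitary (UPow h ω), ∀ x, θ x = u * diag h ω x * star u

/-- Every nonzero (not necessarily unital) ⋆-homomorphism `N → N^ω` is unital. -/
def AllUnital {N : Type u} [CStarAlgebra N] {ρ : N →ₗ[ℂ] ℂ} (h : Stmt.IsTracialVN ρ)
    (ω : Filter ℕ) : Prop :=
  ∀ θ : N →⋆ₙₐ[ℂ] UPow h ω, (∃ x, θ x ≠ 0) → θ 1 = 1

end Pool.Agent.H28.CR
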