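import Pool.Agent.H80.VNGamma

set_option autoImplicit false

/-!
# CR: a countable family of projections generating a separable von Neumann algebra

PROOF. `D` countable and 2-norm dense. For `d ∈ D`, `r : ℕ` apply `exists_discretization` (VNCheeger) to the
real and the imaginary part of `d` with `δ = 1 / (r + 1)`: projections `e m`, `m ∈ Icc 1 n` (`Chain n e` gives
`Proj (e m)`). The set `X` of all these projections, with `1`, is countable; `x` enumerates it, `x 0 = 1`
(e.g. `x 0 = 1`, `x (n + 1) = x' n`, `x'` from `Set.Countable.exists_eq_range`). `z` is close to some `d ∈ D`,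
`d` to a linear combination of elements of `X`, so `T` is a linear combination of the `ι j` and `1`.
-/

universe u

open Filter Topology H80VN

namespace Pool.Agent.H28.CR

variable {N : Type u} [CStarAlgebra N] [TracialVN N]

open scoped ComplexStarModule

/-- discretization, in terms of the linear span -/
private theorem exists_span {h : N} (hh : star h = h) (r : ℕ) :
    ∃ e : ℕ → N, (∀ i, Proj (e i)) ∧
      ∃ y ∈ Submodule.span ℂ (insert (1 : N) (Set.range e)), n2 (h - y) ≤ 2 / (r + 1) := by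
  have hr : (0 : ℝ) < 1 / (r + 1) := by positivity
  obtain ⟨n, e, c, he, hy⟩ := exists_discretization hh hr
  refine ⟨e, he.proj, _, ?_, hy.trans (le_of_eq (by ring))⟩
  have h1 : (1 : N) ∈ Submodule.span ℂ (insert (1 : N) (Set.range e)) :=
    Submodule.subset_span (Set.mem_insert _ _)
  have h2 : ∀ i, e i ∈ Submodule.span ℂ (insert (1 : N) (Set.range e)) := fun i =>
    Submodule.subset_span (Set.mem_insert_of_mem _ ⟨i, rfl⟩)
  refine add_mem ?_ ?_
  · exact ((Submodule.span ℂ (insert (1 : N) (Set.range e))).restrictScalars ℝ).smul_mem c h1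
  · exact ((Submodule.span ℂ (insert (1 : N) (Set.range e))).restrictScalars ℝ).smul_mem _
      (sum_mem fun i _ => h2 i)

/-- discretization of all elements -/
private theorem exists_span' (d : N) (r : ℕ) :
    ∃ e : ℕ → N, (∀ i, Proj (e i)) ∧
      ∃ y ∈ Submodule.span ℂ (insert (1 : N) (Set.range e)), n2 (d - y) ≤ 4 / (r + 1) := by
  obtain ⟨e, he, y, hy, hdy⟩ := exists_span (h := ((realPart d : selfAdjoint N) : N))
    (realPart d).2 r
  obtain ⟨f, hf, z, hz, hdz⟩ := exists_span (h := ((imaginaryPart d : selfAdjoint N) : N))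
    (imaginaryPart d).2 r
  refine ⟨fun i => if i % 2 = 0 then e (i / 2) else f (i / 2), fun i => ?_,
    y + Complex.I • z, ?_, ?_⟩
  · by_cases hi : i % 2 = 0
    · simp only [if_pos hi]
      exact he _
    · simp only [if_neg hi]
      exact hf _
  · refine add_mem ?_ (Submodule.smul_mem _ _ ?_)
    · refine Submodule.span_mono (Set.insert_subset_insert ?_) hy
      rintro _ ⟨i, rfl⟩
      refine ⟨2 * i, ?_⟩
      have h1 : 2 * i % 2 = 0 := by omega
      have h2 : 2 * i / 2 = i := by omega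
      simp only [if_pos h1, h2]
    · refine Submodule.span_mono (Set.insert_subset_insert ?_) hz
      rintro _ ⟨i, rfl⟩
      refine ⟨2 * i + 1, ?_⟩
      have h1 : ¬ (2 * i + 1) % 2 = 0 := by omega
      have h2 : (2 * i + 1) / 2 = i := by omega
      simp only [if_neg h1, h2]
  · have h1 : d - (y + Complex.I • z) = (((realPart d : selfAdjoint N) : N) - y) +
        Complex.I • (((imaginaryPart d : selfAdjoint N) : N) - z) := by
      conv_lhs => rw [← realPart_add_I_smul_imaginaryPart d]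
      rw [smul_sub]
      abel
    rw [h1]
    refine (n2_add_le _ _).trans ?_
    rw [n2_smul, Complex.norm_I, one_mul]
    have h2 : (4 : ℝ) / (r + 1) = 2 / (r + 1) + 2 / (r + 1) := by ring
    rw [h2]
    exact add_le_add hdy hdz

theorem exists_proj_dense (hsep : ∃ D : Set N, D.Countable ∧
      ∀ (x : N) (ε : ℝ), 0 < ε → ∃ d ∈ D, n2 (x - d) < ε) :
    ∃ x : ℕ → N, (∀ j, Proj (x j)) ∧ x 0 = 1 ∧ ∀ (z : N) (ε : ℝ), 0 < ε →
      ∃ T : FreeAlgebra ℂ (ULift.{u} ℕ),
        n2 (z - FreeAlgebra.lift ℂ (fun j : ULift.{u} ℕ => x j.down) T) < ε := by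
  obtain ⟨D, hD, hD'⟩ := hsep
  choose e he y hy hdy using fun (d : N) (r : ℕ) => exists_span' d r
  set X : Set N := insert 1 (⋃ d ∈ D, ⋃ r : ℕ, Set.range (e d r)) with hX
  have hXc : X.Countable := (hD.biUnion fun d _ => Set.countable_iUnion fun r =>
    Set.countable_range (e d r)).insert 1
  have hXp : ∀ p ∈ X, Proj p := by
    intro p hp
    rcases Set.mem_insert_iff.1 hp with rfl | hp
    · exact Proj.one
    · obtain ⟨d, -, hp⟩ := Set.mem_iUnion₂.1 hp
      obtain ⟨r, i, rfl⟩ := Set.mem_iUnion.1 hp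
      exact he d r i
  obtain ⟨f, hf⟩ := hXc.exists_eq_range ⟨1, Set.mem_insert _ _⟩
  obtain ⟨x, hx⟩ : ∃ x : ℕ → N, x = fun j => if j = 0 then 1 else f (j - 1) := ⟨_, rfl⟩
  have hx0 : x 0 = 1 := by rw [hx]; simp
  have hxs : ∀ j, x (j + 1) = f j := fun j => by rw [hx]; simp
  have hxX : ∀ p ∈ X, ∃ j, x j = p := by
    intro p hp
    rw [hf] at hp
    obtain ⟨j, rfl⟩ := hp
    exact ⟨j + 1, hxs j⟩
  refine ⟨x, fun j => ?_, hx0, fun z ε hε => ?_⟩
  · rcases Nat.eq_zero_or_pos j with rfl | hj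
    · rw [hx0]
      exact Proj.one
    · obtain ⟨i, rfl⟩ : ∃ i, j = i + 1 := ⟨j - 1, by omega⟩
      rw [hxs]
      exact hXp _ (by rw [hf]; exact ⟨i, rfl⟩)
  · obtain ⟨d, hd, hzd⟩ := hD' z (ε / 2) (by linarith)
    obtain ⟨r, hr⟩ := exists_nat_gt (8 / ε)
    have hr' : (4 : ℝ) / (r + 1) < ε / 2 := by
      rw [div_lt_iff₀ hε] at hr
      rw [div_lt_iff₀ (by positivity)]
      nlinarith
    have h1 : y d r ∈ Submodule.span ℂ X := by
      refine Submodule.span_mono (Set.insert_subset_insert ?_) (hy d r)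
      intro p hp
      exact Set.mem_iUnion₂.2 ⟨d, hd, Set.mem_iUnion.2 ⟨r, hp⟩⟩
    have h2 : Submodule.span ℂ X ≤ Subalgebra.toSubmodule
        (FreeAlgebra.lift ℂ (fun j : ULift.{u} ℕ => x j.down)).range := by
      rw [Submodule.span_le]
      intro p hp
      obtain ⟨j, rfl⟩ := hxX p hp
      refine ⟨FreeAlgebra.ι ℂ (ULift.up j), ?_⟩
      exact FreeAlgebra.lift_ι_apply _ _
    obtain ⟨T, hT⟩ := h2 h1
    refine ⟨T, ?_⟩
    have hT' : FreeAlgebra.lift ℂ (fun j : ULift.{u} ℕ => x j.down) T = y d r := hT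
    rw [hT']
    have h3 : z - y d r = (z - d) + (d - y d r) := by abel
    rw [h3]
    refine (n2_add_le _ _).trans_lt ?_
    have h4 := hdy d r
    linarith

end Pool.Agent.H28.CR
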