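import Pool.Agent.H28.CR.Fin
import Pool.Agent.H28.CR.Dense
import Pool.Agent.H28.CR.Defs
import Pool.Agent.H28.JT.Gen
import Pool.Agent.H28.JT.Hom

set_option autoImplicit false

/-!
# CR: corner rigidity, assembly
-/

universe u

open Filter Topology H80VN Pool.Agent.H68.Amp Pool.Agent.H28.JP

namespace Pool.Agent.H28.CR

section words

/-- the word `w` in the free algebra. -/
noncomputable def wd (w : List ℕ) : FreeAlgebra ℂ (ULift.{u} ℕ) :=
  (w.map fun j => FreeAlgebra.ι ℂ (ULift.up.{u} j)).prod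

theorem wd_append (w w' : List ℕ) : wd.{u} (w ++ w') = wd.{u} w * wd.{u} w' := by
  unfold wd
  rw [List.map_append, List.prod_append]

theorem mem_span_wd (T : FreeAlgebra ℂ (ULift.{u} ℕ)) :
    T ∈ Submodule.span ℂ (Set.range wd.{u}) := by
  induction T using FreeAlgebra.induction with
  | grade0 r =>
    have e1 : algebraMap ℂ (FreeAlgebra ℂ (ULift.{u} ℕ)) r = r • wd.{u} [] := by
      rw [Algebra.algebraMap_eq_smul_one]
      rfl
    rw [e1]
    exact Submodule.smul_mem _ _ (Submodule.subset_span ⟨[], rfl⟩)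
  | grade1 j =>
    refine Submodule.subset_span ⟨[j.down], ?_⟩
    unfold wd
    simp
  | mul a b ha hb =>
    have h1 := Submodule.mul_mem_mul ha hb
    rw [Submodule.span_mul_span] at h1
    refine Submodule.span_mono ?_ h1
    rintro _ ⟨_, ⟨w, rfl⟩, _, ⟨w', rfl⟩, rfl⟩
    exact ⟨w ++ w', wd_append w w'⟩
  | add a b ha hb => exact Submodule.add_mem _ ha hb

theorem lift_wd {A : Type u} [Ring A] [Algebra ℂ A] (x : ℕ → A) (w : List ℕ) :
    FreeAlgebra.lift ℂ (fun j : ULift.{u} ℕ => x j.down) (wd.{u} w) = (w.map x).prod := by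
  unfold wd
  rw [map_list_prod, List.map_map]
  congr 1
  refine List.map_congr_left fun j _ => ?_
  simp

end words

variable {N : Type u} [CStarAlgebra N] {ρ : N →ₗ[ℂ] ℂ}

/-- A corner embedding gives a unital embedding with nontrivial relative commutant. -/
theorem exists_split (h : Stmt.IsII1Factor ρ) (hsep : Stmt.Separable ρ) (ω : Ultrafilter ℕ)
    (hω : (ω : Filter ℕ) ≤ atTop)
    (θ : N →⋆ₙₐ[ℂ] UPow (vn h) (ω : Filter ℕ)) {t : ℝ} (ht0 : 0 < t) (ht1 : t < 1)
    (hθ : ∀ (a : N) (s : LInf N), UPow.mk (vn h) (ω : Filter ℕ) s = θ a →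
      Tendsto (fun k => ρ (s.seq k)) (ω : Filter ℕ) (𝓝 ((t : ℂ) * ρ a))) :
    ∃ (π : N →⋆ₐ[ℂ] UPow (vn h) (ω : Filter ℕ)) (p : LInf N), (∀ k, Proj (p.seq k)) ∧
      Tendsto (fun k => (ρ (p.seq k)).re) (ω : Filter ℕ) (𝓝 (1 / 2)) ∧
      ∀ z, UPow.mk (vn h) (ω : Filter ℕ) p * π z = π z * UPow.mk (vn h) (ω : Filter ℕ) p := by
  classical
  let _ : TracialVN N := toTracialVN (vn h)
  have hωc : (ω : Filter ℕ) ≤ atTop := hω
  obtain ⟨x, hx, hx0, hxd⟩ := exists_proj_dense (N := N) hsep
  choose Y P hY1 hY2 hP hPt hPY hYw using fun m => exists_tuple h ω θ ht0 ht1 hθ hx hx0 m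
  set Z : ℕ → LInf N := fun j => ⟨fun m => Y m j, 1, fun m => hY2 m j⟩ with hZ
  set p : LInf N := ⟨P, 1, fun m => (hP m).norm_le⟩ with hp
  obtain ⟨tN, htN, -, -, -⟩ := exists_utr' (vn h) ω
  let d : FreeAlgebra ℂ (ULift.{u} ℕ) →ₐ[ℂ] N := FreeAlgebra.lift ℂ fun j : ULift.{u} ℕ => x j.down
  let B : FreeAlgebra ℂ (ULift.{u} ℕ) →ₐ[ℂ] UPow (vn h) (ω : Filter ℕ) :=
    FreeAlgebra.lift ℂ fun j : ULift.{u} ℕ => UPow.mk (vn h) (ω : Filter ℕ) (Z j.down)
  have hdι : ∀ j : ULift.{u} ℕ, d (FreeAlgebra.ι ℂ j) = x j.down := fun j =>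
    FreeAlgebra.lift_ι_apply _ _
  have hBι : ∀ j : ULift.{u} ℕ, B (FreeAlgebra.ι ℂ j) =
      UPow.mk (vn h) (ω : Filter ℕ) (Z j.down) := fun j => FreeAlgebra.lift_ι_apply _ _
  -- the moments
  have hw : ∀ w : List ℕ, tN (B (wd w)) = ρ (d (wd w)) := by
    intro w
    have e1 : d (wd w) = (w.map x).prod := lift_wd x w
    have e2 : B (wd w) = UPow.mk (vn h) (ω : Filter ℕ) (w.map Z).prod := by
      have e3 : B (wd w) = (w.map fun j => UPow.mk (vn h) (ω : Filter ℕ) (Z j)).prod :=
        lift_wd (fun j => UPow.mk (vn h) (ω : Filter ℕ) (Z j)) w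
      rw [e3, map_list_prod, List.map_map]
      rfl
    rw [e1, e2]
    have h1 := htN (w.map Z).prod
    have h2 : Tendsto (fun m => ρ ((w.map Z).prod.seq m)) (ω : Filter ℕ) (𝓝 (ρ (w.map x).prod)) := by
      have h3 : Tendsto (fun m : ℕ => 4 / ((m : ℝ) + 1) + √(2 / ((m : ℝ) + 1))) atTop (𝓝 0) := by
        have e3 : Tendsto (fun m : ℕ => 1 / ((m : ℝ) + 1)) atTop (𝓝 0) :=
          tendsto_one_div_add_atTop_nhds_zero_nat
        have e4 : Tendsto (fun m : ℕ => 4 / ((m : ℝ) + 1)) atTop (𝓝 0) := by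
          have := e3.const_mul 4
          rw [mul_zero] at this
          exact this.congr fun m => by ring
        have e5 : Tendsto (fun m : ℕ => 2 / ((m : ℝ) + 1)) atTop (𝓝 0) := by
          have := e3.const_mul 2
          rw [mul_zero] at this
          exact this.congr fun m => by ring
        have e6 := e5.sqrt
        rw [Real.sqrt_zero] at e6
        have e7 := e4.add e6
        rwa [add_zero] at e7
      rw [tendsto_iff_norm_sub_tendsto_zero]
      refine squeeze_zero' (Eventually.of_forall fun m => norm_nonneg _) ?_ (h3.mono_left hω)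
      have h4 : ∀ᶠ m in (ω : Filter ℕ), Encodable.encode w < m :=
        hω (eventually_gt_atTop (Encodable.encode w))
      filter_upwards [h4] with m hm
      rw [seq_prod]
      exact hYw m w hm
    exact tendsto_nhds_unique h1 h2
  have htr : ∀ T, tN (B T) = ρ (d T) := by
    intro T
    have h1 : Set.EqOn (tN ∘ₗ B.toLinearMap) (ρ ∘ₗ d.toLinearMap)
        (Submodule.span ℂ (Set.range wd.{u})) := by
      refine LinearMap.eqOn_span ?_
      rintro _ ⟨w, rfl⟩
      exact hw w
    exact h1 (mem_span_wd T)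
  obtain ⟨π, hπ⟩ := Pool.Agent.H28.JT.extend (vn h) ω hω d B
    (fun T => by
      induction T using FreeAlgebra.induction with
      | grade0 r =>
        refine ⟨algebraMap ℂ _ (star r), ?_, ?_⟩
        · rw [AlgHom.commutes, AlgHom.commutes, algebraMap_star_comm]
        · rw [AlgHom.commutes, AlgHom.commutes]
          exact algebraMap_star_comm r
      | grade1 j =>
        refine ⟨FreeAlgebra.ι ℂ j, ?_, ?_⟩
        · rw [hdι, (hx _).star_eq]
        · rw [hBι, UPow.star_mk]
          exact congrArg _ (LInf.ext' fun m => (hY1 m _).symm)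
      | mul a b ha hb =>
        obtain ⟨a', ha1, ha2⟩ := ha
        obtain ⟨b', hb1, hb2⟩ := hb
        exact ⟨b' * a', by rw [map_mul, ha1, hb1, map_mul, star_mul],
          by rw [map_mul, ha2, hb2, map_mul, star_mul]⟩
      | add a b ha hb =>
        obtain ⟨a', ha1, ha2⟩ := ha
        obtain ⟨b', hb1, hb2⟩ := hb
        exact ⟨a' + b', by rw [map_add, ha1, hb1, map_add, star_add],
          by rw [map_add, ha2, hb2, map_add, star_add]⟩)
    (fun T s hs => by
      rw [← htr T, ← hs]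
      exact htN s)
    (fun z ε hε => hxd z ε hε)
  refine ⟨π, p, fun k => hP k, ?_, fun z => ?_⟩
  · -- the trace of `p`
    have h1 : Tendsto (fun m : ℕ => 2 / ((m : ℝ) + 1)) atTop (𝓝 0) := by
      have := tendsto_one_div_add_atTop_nhds_zero_nat.const_mul (2 : ℝ)
      rw [mul_zero] at this
      exact this.congr fun m => by ring
    rw [tendsto_iff_norm_sub_tendsto_zero]
    exact squeeze_zero (fun m => norm_nonneg _) (fun m => hPt m) (h1.mono_left hω)
  · -- the commutant
    have hB : ∀ T, UPow.mk (vn h) (ω : Filter ℕ) p * B T = B T * UPow.mk (vn h) (ω : Filter ℕ) p := by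
      intro T
      induction T using FreeAlgebra.induction with
      | grade0 r => rw [AlgHom.commutes, Algebra.commutes]
      | grade1 j =>
        rw [hBι, ← map_mul, ← map_mul]
        exact congrArg _ (LInf.ext' fun m => hPY m _)
      | mul a b ha hb => rw [map_mul, ← mul_assoc, ha, mul_assoc, hb, mul_assoc]
      | add a b ha hb => rw [map_add, mul_add, add_mul, ha, hb]
    obtain ⟨q, hq⟩ := UPow.mk_surjective (vn h) (ω : Filter ℕ) (π z)
    rw [← hq, ← map_mul, ← map_mul, UPow.mk_eq]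
    have key : Tendsto (fun k => n2 (P k * q.seq k - q.seq k * P k)) (ω : Filter ℕ) (𝓝 0) := by
      rw [Metric.tendsto_nhds]
      intro ε hε
      obtain ⟨T, hT⟩ := hxd z (ε / 4) (by positivity)
      obtain ⟨b, hb⟩ := UPow.mk_surjective (vn h) (ω : Filter ℕ) (B T)
      have h1 := hB T
      rw [← hb, ← map_mul, ← map_mul, UPow.mk_eq] at h1
      have h1' : Tendsto (fun k => n2 (P k * b.seq k - b.seq k * P k)) (ω : Filter ℕ) (𝓝 0) := h1
      have h2 := Pool.Agent.H28.JT.tendsto_lift (vn h) (ω : Filter ℕ) π (tracePres h ω π) (z - d T)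
        (q - b) (by rw [map_sub (UPow.mk (vn h) (ω : Filter ℕ)), hq, hb, map_sub, hπ])
      have h3 : ∀ᶠ k in (ω : Filter ℕ), n2 ((q - b).seq k) < ε / 4 :=
        h2.eventually (gt_mem_nhds hT)
      have h4 : ∀ᶠ k in (ω : Filter ℕ), n2 (P k * b.seq k - b.seq k * P k) < ε / 4 :=
        h1'.eventually (gt_mem_nhds (by positivity))
      filter_upwards [h3, h4] with k hk3 hk4
      rw [Real.dist_eq, sub_zero, abs_of_nonneg (n2_nonneg _)]
      have e1 : P k * q.seq k - q.seq k * P k = (P k * b.seq k - b.seq k * P k) +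
          (P k * (q - b).seq k - (q - b).seq k * P k) := by
        rw [seq_sub]; noncomm_ring
      rw [e1]
      have e2 := n2_add_le (P k * b.seq k - b.seq k * P k)
        (P k * (q - b).seq k - (q - b).seq k * P k)
      have e3 := n2_sub_le (P k * (q - b).seq k) ((q - b).seq k * P k)
      have e4 := n2_mul_le_of_norm_le_one_left (hP k).norm_le ((q - b).seq k)
      have e5 := n2_mul_le_of_norm_le_one_right ((q - b).seq k) (hP k).norm_le
      linarith
    exact key

end Pool.Agent.H28.CR
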