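import Pool.Agent.H80.VNGamma

set_option autoImplicit false

/-!
# CR: direct sums of copies of a tuple in orthogonal corners

PROOF. (1) `p = y 0`. By induction on `n` (`exists_comparison`, VNPI) there are `v i`, `i < n`, with
`star (v i) * v i = p`, `star (v i) * v l = 0` for `i ≠ l` (at step `i` use the projection `1 - ∑ l < i, v l * star (v l)`,
of trace `1 - i * rt p ≥ rt p`). (2) `Y j = ∑ i, v i * y j * star (v i)`, `e = ∑ i, v i * star (v i)`,
`P = ∑ i < n', v i * star (v i)`. `v i * p = v i`. `Y j * v i = v i * y j * p`, so by induction on the list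
`(w.map Y).prod * v i = v i * ((w.flatMap fun j => [j, 0]).map y).prod`. Hence
`tr ((w.map Y).prod * e) = ∑ i, tr ((w.map Y).prod * v i * star (v i)) = n * tr (((w.flatMap ..).map y).prod * p)`.
`0 ≤ y j ≤ 1` gives `0 ≤ v i * y j * star (v i) ≤ v i * star (v i)`, `0 ≤ Y j ≤ e ≤ 1`, `‖Y j‖ ≤ 1`.
`v i * star (v i) * Y j = v i * y j * star (v i) = Y j * (v i * star (v i))`.
-/

universe u

open Filter Topology H80VN

namespace Pool.Agent.H28.CR

attribute [local instance] CStarAlgebra.spectralOrder CStarAlgebra.spectralOrderedRing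

variable {N : Type u} [CStarAlgebra N] [TracialVN N]

/-- `k` partial isometries with initial projection `p` and orthogonal ranges. -/
private structure Iso (p : N) (n : ℕ) (v : ℕ → N) : Prop where
  self : ∀ i < n, star (v i) * v i = p
  ne : ∀ i < n, ∀ l < n, i ≠ l → star (v i) * v l = 0

private theorem Iso.mul_p {p : N} {n : ℕ} {v : ℕ → N} (hp : Proj p) (h : Iso p n v) {i : ℕ}
    (hi : i < n) : v i * p = v i := by
  have h1 : v i * (1 - p) = 0 := by
    apply eq_zero_of_ssm
    rw [star_mul, hp.one_sub.star_eq]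
    calc (1 - p) * star (v i) * (v i * (1 - p)) = (1 - p) * (star (v i) * v i) * (1 - p) := by
          simp only [mul_assoc]
      _ = 0 := by
          rw [h.self i hi, sub_mul, one_mul, hp.mul_self, sub_self, zero_mul]
  rw [mul_sub, mul_one] at h1
  exact (sub_eq_zero.1 h1).symm

private theorem Iso.p_mul {p : N} {n : ℕ} {v : ℕ → N} (hp : Proj p) (h : Iso p n v) {i : ℕ}
    (hi : i < n) : p * star (v i) = star (v i) := by
  have h1 := congrArg star (h.mul_p hp hi)
  rwa [star_mul, hp.star_eq] at h1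

private noncomputable def rg (v : ℕ → N) (k : ℕ) : N := ∑ i ∈ Finset.range k, v i * star (v i)

private theorem rg_star (v : ℕ → N) (k : ℕ) : star (rg v k) = rg v k := by
  unfold rg
  rw [star_sum]
  exact Finset.sum_congr rfl fun i _ => by rw [star_mul, star_star]

private theorem Iso.rg_mul {p : N} {n : ℕ} {v : ℕ → N} (hp : Proj p) (h : Iso p n v) {k : ℕ}
    (hk : k ≤ n) {i : ℕ} (hi : i < k) : rg v k * v i = v i := by
  unfold rg
  rw [Finset.sum_mul, Finset.sum_eq_single i]
  · rw [mul_assoc, h.self i (by omega), h.mul_p hp (by omega)]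
  · intro l hl hne
    rw [Finset.mem_range] at hl
    rw [mul_assoc, h.ne l (by omega) i (by omega) hne, mul_zero]
  · intro hh
    exact absurd (Finset.mem_range.2 hi) hh

private theorem Iso.rg_proj {p : N} {n : ℕ} {v : ℕ → N} (hp : Proj p) (h : Iso p n v) {k : ℕ}
    (hk : k ≤ n) : Proj (rg v k) := by
  refine ⟨?_, rg_star v k⟩
  conv_lhs => rw [show rg v k * rg v k = rg v k * ∑ i ∈ Finset.range k, v i * star (v i) from rfl]
  rw [Finset.mul_sum]
  refine Finset.sum_congr rfl fun i hi => ?_
  rw [← mul_assoc, h.rg_mul hp hk (Finset.mem_range.1 hi)]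

private theorem Iso.rg_rt {p : N} {n : ℕ} {v : ℕ → N} (h : Iso p n v) {k : ℕ} (hk : k ≤ n) :
    rt (rg v k) = k * rt p := by
  unfold rg
  rw [rt_sum]
  have h1 : ∀ i ∈ Finset.range k, rt (v i * star (v i)) = rt p := fun i hi => by
    rw [rt_comm, h.self i (by have := Finset.mem_range.1 hi; omega)]
  rw [Finset.sum_congr rfl h1, Finset.sum_const, Finset.card_range, nsmul_eq_mul]

private theorem exists_iso (hN : IsFactor N) {p : N} (hp : Proj p) (n : ℕ)
    (hn : (n : ℝ) * rt p ≤ 1) : ∃ v : ℕ → N, Iso p n v := by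
  induction n with
  | zero => exact ⟨fun _ => 0, ⟨fun i hi => absurd hi (Nat.not_lt_zero i),
      fun i hi => absurd hi (Nat.not_lt_zero i)⟩⟩
  | succ n ih =>
      have h0 := hp.rt_nonneg
      rw [Nat.cast_succ] at hn
      obtain ⟨v, hv⟩ := ih (by linarith)
      have h1 : Proj (rg v n) := hv.rg_proj hp le_rfl
      obtain ⟨z, hz, hz'⟩ := exists_comparison hN hp h1.one_sub
        (by rw [rt_sub, rt_one, hv.rg_rt le_rfl]; linarith)
      have h2 : rg v n * z = 0 := by
        rw [sub_mul, one_mul] at hz'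
        have h3 := sub_eq_self.1 hz'
        exact h3
      have h3 : ∀ i < n, star (v i) * z = 0 := fun i hi => by
        have h4 : star (v i) * rg v n = star (v i) := by
          have h5 := congrArg star (hv.rg_mul hp le_rfl hi)
          rwa [star_mul, rg_star] at h5
        rw [← h4, mul_assoc, h2, mul_zero]
      have h4 : ∀ i < n, star z * v i = 0 := fun i hi => by
        have h5 := congrArg star (h3 i hi)
        rwa [star_mul, star_star, star_zero] at h5
      refine ⟨fun i => if i < n then v i else z, ⟨fun i hi => ?_, fun i hi l hl hne => ?_⟩⟩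
      · by_cases hin : i < n
        · simp only [if_pos hin]
          exact hv.self i hin
        · simp only [if_neg hin]
          exact hz
      · by_cases hin : i < n
        · by_cases hln : l < n
          · simp only [if_pos hin, if_pos hln]
            exact hv.ne i hin l hln hne
          · simp only [if_pos hin, if_neg hln]
            exact h3 i hin
        · by_cases hln : l < n
          · simp only [if_neg hin, if_pos hln]
            exact h4 l hln
          · omega

private noncomputable def cp (v y : ℕ → N) (n : ℕ) (j : ℕ) : N :=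
  ∑ i ∈ Finset.range n, v i * y j * star (v i)

private theorem cp_star {v y : ℕ → N} (hy : ∀ j, Proj (y j)) (n j : ℕ) :
    star (cp v y n j) = cp v y n j := by
  unfold cp
  rw [star_sum]
  refine Finset.sum_congr rfl fun i _ => ?_
  rw [star_mul, star_mul, star_star, (hy j).star_eq, mul_assoc]

private theorem Iso.cp_mul {y : ℕ → N} {n : ℕ} {v : ℕ → N} (h : Iso (y 0) n v) {i : ℕ}
    (hi : i < n) (j : ℕ) : cp v y n j * v i = v i * y j * y 0 := by
  unfold cp
  rw [Finset.sum_mul, Finset.sum_eq_single i]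
  · rw [mul_assoc, h.self i hi]
  · intro l hl hne
    rw [Finset.mem_range] at hl
    rw [mul_assoc, h.ne l hl i hi hne, mul_zero]
  · intro hh
    exact absurd (Finset.mem_range.2 hi) hh

private theorem Iso.mul_cp {y : ℕ → N} (hy : ∀ j, Proj (y j)) {n : ℕ} {v : ℕ → N}
    (h : Iso (y 0) n v) {i : ℕ} (hi : i < n) (j : ℕ) :
    star (v i) * cp v y n j = y 0 * y j * star (v i) := by
  have h1 := congrArg star (h.cp_mul hi j)
  rw [star_mul, cp_star hy, star_mul, star_mul, (hy j).star_eq, (hy 0).star_eq] at h1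
  rw [h1, mul_assoc]

private theorem Iso.cp_comm {y : ℕ → N} (hy : ∀ j, Proj (y j)) {n : ℕ} {v : ℕ → N}
    (h : Iso (y 0) n v) {k : ℕ} (hk : k ≤ n) (j : ℕ) :
    rg v k * cp v y n j = cp v y n j * rg v k := by
  unfold rg
  rw [Finset.sum_mul, Finset.mul_sum]
  refine Finset.sum_congr rfl fun i hi => ?_
  have hin : i < n := by
    have := Finset.mem_range.1 hi
    omega
  rw [mul_assoc, h.mul_cp hy hin, ← mul_assoc (cp v y n j), h.cp_mul hin]
  calc v i * (y 0 * y j * star (v i)) = v i * y 0 * y j * star (v i) := by simp only [mul_assoc]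
    _ = v i * y j * (y 0 * star (v i)) := by rw [h.mul_p (hy 0) hin, h.p_mul (hy 0) hin]
    _ = v i * y j * y 0 * star (v i) := by simp only [mul_assoc]

private theorem proj_nonneg {p : N} (hp : Proj p) : 0 ≤ p := by
  have h1 := star_mul_self_nonneg p
  rwa [hp.star_eq, hp.mul_self] at h1

private theorem proj_le_one {p : N} (hp : Proj p) : p ≤ 1 :=
  sub_nonneg.1 (proj_nonneg hp.one_sub)

private theorem Iso.cp_norm {y : ℕ → N} (hy : ∀ j, Proj (y j)) {n : ℕ} {v : ℕ → N}
    (h : Iso (y 0) n v) (j : ℕ) : ‖cp v y n j‖ ≤ 1 := by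
  have h1 : 0 ≤ cp v y n j := by
    unfold cp
    exact Finset.sum_nonneg fun i _ => star_right_conjugate_nonneg (proj_nonneg (hy j)) (v i)
  have h2 : cp v y n j ≤ rg v n := by
    unfold cp rg
    refine Finset.sum_le_sum fun i _ => ?_
    have h3 := star_right_conjugate_le_conjugate (proj_le_one (hy j)) (v i)
    rwa [mul_one] at h3
  have h3 : rg v n ≤ 1 := proj_le_one (h.rg_proj (hy 0) le_rfl)
  exact (CStarAlgebra.norm_le_one_iff_of_nonneg _ h1).2 (h2.trans h3)

private theorem Iso.word {y : ℕ → N} {n : ℕ} {v : ℕ → N} (h : Iso (y 0) n v) {i : ℕ}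
    (hi : i < n) (w : List ℕ) :
    (w.map (cp v y n)).prod * v i = v i * ((w.flatMap fun j => [j, 0]).map y).prod := by
  induction w with
  | nil => simp
  | cons j w ih =>
      rw [List.map_cons, List.prod_cons, mul_assoc, ih, ← mul_assoc, h.cp_mul hi,
        List.flatMap_cons, List.map_append, List.prod_append]
      simp [mul_assoc]

theorem exists_copies (hN : IsFactor N) {y : ℕ → N} (hy : ∀ j, Proj (y j)) (n n' : ℕ)
    (hn : (n : ℝ) * rt (y 0) ≤ 1) (hn' : n' ≤ n) :
    ∃ (Y : ℕ → N) (e P : N), (∀ j, star (Y j) = Y j) ∧ (∀ j, ‖Y j‖ ≤ 1) ∧ Proj e ∧ Proj P ∧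
      rt e = n * rt (y 0) ∧ rt P = n' * rt (y 0) ∧ (∀ j, P * Y j = Y j * P) ∧
      ∀ w : List ℕ, TracialVN.tr ((w.map Y).prod * e) =
        n * TracialVN.tr (((w.flatMap fun j => [j, 0]).map y).prod * y 0) := by
  obtain ⟨v, hv⟩ := exists_iso hN (hy 0) n hn
  refine ⟨cp v y n, rg v n, rg v n', cp_star hy n, hv.cp_norm hy, hv.rg_proj (hy 0) le_rfl,
    hv.rg_proj (hy 0) hn', hv.rg_rt le_rfl, hv.rg_rt hn', hv.cp_comm hy hn', fun w => ?_⟩
  have h1 : (w.map (cp v y n)).prod * rg v n = ∑ i ∈ Finset.range n,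
      v i * (((w.flatMap fun j => [j, 0]).map y).prod * star (v i)) := by
    unfold rg
    rw [Finset.mul_sum]
    refine Finset.sum_congr rfl fun i hi => ?_
    rw [← mul_assoc, hv.word (Finset.mem_range.1 hi), mul_assoc]
  rw [h1, map_sum]
  have h2 : ∀ i ∈ Finset.range n, TracialVN.tr
      (v i * (((w.flatMap fun j => [j, 0]).map y).prod * star (v i))) =
      TracialVN.tr (((w.flatMap fun j => [j, 0]).map y).prod * y 0) := fun i hi => by
    rw [TracialVN.tr_comm, mul_assoc, hv.self i (Finset.mem_range.1 hi)]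
  rw [Finset.sum_congr rfl h2, Finset.sum_const, Finset.card_range, nsmul_eq_mul]

end Pool.Agent.H28.CR
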