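import Pool.Agent.H28.CR.Iter
import Pool.Agent.H28.CR.Copies

set_option autoImplicit false

/-!
# CR: tuples with almost the right moments
-/

universe u

open Filter Topology H80VN Pool.Agent.H68.Amp Pool.Agent.H28.JP

namespace Pool.Agent.H28.CR

section words

variable {N : Type u} [CStarAlgebra N] [TracialVN N]

theorem norm_word_le {y : ℕ → N} (hy : ∀ j, ‖y j‖ ≤ 1) (w : List ℕ) : ‖(w.map y).prod‖ ≤ 1 := by
  induction w with
  | nil =>
    have := nontrivial_M N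
    rw [List.map_nil, List.prod_nil, CStarRing.norm_one]
  | cons j w ih =>
    rw [List.map_cons, List.prod_cons]
    exact (norm_mul_le _ _).trans (mul_le_one₀ (hy j) (norm_nonneg _) ih)

theorem norm_tr_word_le {y : ℕ → N} (hy : ∀ j, ‖y j‖ ≤ 1) (w : List ℕ) :
    ‖TracialVN.tr (w.map y).prod‖ ≤ 1 :=
  (norm_tr_le_n2 _).trans ((n2_le_norm _).trans (norm_word_le hy w))

theorem word_x {x : ℕ → N} (hx : x 0 = 1) (w : List ℕ) :
    ((w.flatMap fun j => [j, 0]).map x).prod = (w.map x).prod := by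
  induction w with
  | nil => rfl
  | cons j w ih =>
    rw [List.flatMap_cons, List.map_append, List.prod_append, ih, List.map_cons, List.prod_cons]
    simp [hx]

end words

variable {N : Type u} [CStarAlgebra N] {ρ : N →ₗ[ℂ] ℂ}

theorem exists_tuple (h : Stmt.IsII1Factor ρ) (ω : Ultrafilter ℕ)
    (θ : N →⋆ₙₐ[ℂ] UPow (vn h) (ω : Filter ℕ)) {t : ℝ} (ht0 : 0 < t) (ht1 : t < 1)
    (hθ : ∀ (a : N) (s : LInf N), UPow.mk (vn h) (ω : Filter ℕ) s = θ a →
      Tendsto (fun k => ρ (s.seq k)) (ω : Filter ℕ) (𝓝 ((t : ℂ) * ρ a)))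
    {x : ℕ → N} (hx : ∀ j, Proj (x j)) (hx0 : x 0 = 1) (m : ℕ) :
    ∃ (Y : ℕ → N) (P : N), (∀ j, star (Y j) = Y j) ∧ (∀ j, ‖Y j‖ ≤ 1) ∧ Proj P ∧
      |(ρ P).re - 1 / 2| ≤ 2 / ((m : ℝ) + 1) ∧ (∀ j, P * Y j = Y j * P) ∧
      ∀ w : List ℕ, Encodable.encode w < m → ‖ρ (w.map Y).prod - ρ (w.map x).prod‖ ≤
        4 / ((m : ℝ) + 1) + √(2 / ((m : ℝ) + 1)) := by
  classical
  let _ : TracialVN N := toTracialVN (vn h)
  have hM : IsFactor N := h.2.1
  have hm : (0 : ℝ) < (m : ℝ) + 1 := by positivity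
  obtain ⟨k, hk⟩ := exists_pow_lt_of_lt_one (show (0 : ℝ) < 1 / ((m : ℝ) + 1) by positivity) ht1
  set s : ℝ := t ^ k with hs
  have hs0 : 0 < s := by positivity
  set ε : ℝ := s / (2 * ((m : ℝ) + 1)) with hε
  have hε0 : 0 < ε := by positivity
  have hεs : ε ≤ s / 2 := by
    rw [hε, div_le_div_iff₀ (by positivity) (by norm_num)]
    nlinarith [(Nat.cast_nonneg m : (0 : ℝ) ≤ (m : ℝ))]
  set W : Finset (List ℕ) := insert [0] ((Finset.range m).image fun n =>
    ((Denumerable.ofNat (List ℕ) n).flatMap fun j => [j, 0]) ++ [0]) with hW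
  obtain ⟨y, hy, hyW⟩ := exists_iterate h ω θ ht0.le ht1.le hθ hx k W ε hε0
  have hxn : ∀ j, ‖x j‖ ≤ 1 := fun j => (hx j).norm_le
  -- the trace of `y 0`
  set r : ℝ := rt (y 0) with hr
  have hyt : ρ (y 0) = ((r : ℝ) : ℂ) := by
    apply Complex.ext
    · rfl
    · rw [Complex.ofReal_im]
      have e1 : y 0 = star (y 0) * y 0 := by rw [(hy 0).star_eq, (hy 0).mul_self]
      have e2 : TracialVN.tr (y 0) = ((n2 (y 0) ^ 2 : ℝ) : ℂ) := by
        conv_lhs => rw [e1]
        exact tr_ssm _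
      have e3 := congrArg Complex.im e2
      rw [Complex.ofReal_im] at e3
      exact e3
  have hrs : |r - s| ≤ ε := by
    have h1 := hyW [0] (Finset.mem_insert_self _ _) (by simp)
    have e1 : ρ ((([0] : List ℕ).map y).prod) - (t : ℂ) ^ k * ρ ((([0] : List ℕ).map x).prod) =
        ((r - s : ℝ) : ℂ) := by
      have e2 : ρ (1 : N) = 1 := (vn h).one
      simp only [List.map_cons, List.map_nil, List.prod_cons, List.prod_nil, mul_one, hx0, e2, hyt,
        hs]
      push_cast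
      ring
    rw [e1, Complex.norm_real, Real.norm_eq_abs] at h1
    exact h1
  have hr1 : s / 2 ≤ r := by
    have := (abs_le.1 hrs).1
    linarith
  have hr2 : r ≤ 3 / 2 * s := by
    have := (abs_le.1 hrs).2
    linarith
  have hr0 : 0 < r := by linarith
  -- the number of copies
  set n : ℕ := ⌊1 / r⌋₊ with hn
  have hn1 : (n : ℝ) * r ≤ 1 := by
    have h1 : (n : ℝ) ≤ 1 / r := Nat.floor_le (by positivity)
    rwa [le_div_iff₀ hr0] at h1
  have hn2 : 1 < ((n : ℝ) + 1) * r := by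
    have h1 : 1 / r < (n : ℝ) + 1 := Nat.lt_floor_add_one _
    rwa [div_lt_iff₀ hr0] at h1
  obtain ⟨Y, e, P, hY1, hY2, he, hP, hre, hrP, hPY, hYw⟩ := exists_copies hM hy n (n / 2) hn1
    (Nat.div_le_self _ _)
  have hns : (n : ℝ) * ε ≤ 1 / ((m : ℝ) + 1) := by
    have h1 : (n : ℝ) * (s / 2) ≤ 1 := (mul_le_mul_of_nonneg_left hr1 (Nat.cast_nonneg n)).trans hn1
    have e1 : (n : ℝ) * ε = ((n : ℝ) * (s / 2)) * (1 / ((m : ℝ) + 1)) := by
      rw [hε]; field_simp
    rw [e1]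
    calc ((n : ℝ) * (s / 2)) * (1 / ((m : ℝ) + 1)) ≤ 1 * (1 / ((m : ℝ) + 1)) :=
          mul_le_mul_of_nonneg_right h1 (by positivity)
      _ = 1 / ((m : ℝ) + 1) := one_mul _
  have hs1 : s ≤ 1 / ((m : ℝ) + 1) := hk.le
  refine ⟨Y, P, hY1, hY2, hP, ?_, hPY, fun w hw => ?_⟩
  · -- the trace of `P`
    have e0 : (ρ P).re = ((n / 2 : ℕ) : ℝ) * r := hrP
    rw [e0]
    have e1 : ((n / 2 : ℕ) : ℝ) ≤ (n : ℝ) / 2 := Nat.cast_div_le
    have e2 : (n : ℝ) ≤ 2 * ((n / 2 : ℕ) : ℝ) + 1 := by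
      have : n ≤ 2 * (n / 2) + 1 := by omega
      exact_mod_cast this
    have e3 : ((n / 2 : ℕ) : ℝ) * r ≤ 1 / 2 := by nlinarith
    have e4 : 1 / 2 - r ≤ ((n / 2 : ℕ) : ℝ) * r := by nlinarith
    have e5 : 2 / ((m : ℝ) + 1) = 2 * (1 / ((m : ℝ) + 1)) := by ring
    have e6 : (0 : ℝ) < 1 / ((m : ℝ) + 1) := by positivity
    rw [abs_le, e5]
    constructor
    · linarith
    · linarith
  · -- the moments
    have hwW : ((w.flatMap fun j => [j, 0]) ++ [0]) ∈ W := by
      rw [hW, Finset.mem_insert]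
      right
      rw [Finset.mem_image]
      exact ⟨Encodable.encode w, Finset.mem_range.2 hw, by rw [Denumerable.ofNat_encode]⟩
    have h1 := hyW _ hwW (by simp)
    have e1 : ((((w.flatMap fun j => [j, 0]) ++ [0]).map x).prod) = (w.map x).prod := by
      rw [List.map_append, List.prod_append, word_x hx0]
      simp [hx0]
    have e2 : ((((w.flatMap fun j => [j, 0]) ++ [0]).map y).prod) =
        ((w.flatMap fun j => [j, 0]).map y).prod * y 0 := by
      rw [List.map_append, List.prod_append]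
      simp
    rw [e1, e2] at h1
    have h2 : ρ ((w.map Y).prod * e) = n * ρ (((w.flatMap fun j => [j, 0]).map y).prod * y 0) := hYw w
    have h3 : ‖ρ (w.map x).prod‖ ≤ 1 := norm_tr_word_le hxn w
    have h4 : ‖ρ ((w.map Y).prod * e) - ρ (w.map x).prod‖ ≤ 4 / ((m : ℝ) + 1) := by
      rw [h2]
      have e3 : (n : ℂ) * ρ (((w.flatMap fun j => [j, 0]).map y).prod * y 0) - ρ (w.map x).prod =
          (n : ℂ) * (ρ (((w.flatMap fun j => [j, 0]).map y).prod * y 0) -
            (t : ℂ) ^ k * ρ (w.map x).prod) + (((n : ℝ) * s - 1 : ℝ) : ℂ) * ρ (w.map x).prod := by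
        rw [hs]
        push_cast
        ring
      rw [e3]
      refine (norm_add_le _ _).trans ?_
      rw [norm_mul, norm_mul, Complex.norm_natCast, Complex.norm_real, Real.norm_eq_abs]
      have h5 : (n : ℝ) * ‖ρ (((w.flatMap fun j => [j, 0]).map y).prod * y 0) -
            (t : ℂ) ^ k * ρ (w.map x).prod‖ ≤ 1 / ((m : ℝ) + 1) :=
        (mul_le_mul_of_nonneg_left h1 (Nat.cast_nonneg n)).trans hns
      have h6 : |(n : ℝ) * s - 1| ≤ 5 / 2 * (1 / ((m : ℝ) + 1)) := by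
        have e4 : (n : ℝ) * s - 1 = ((n : ℝ) * r - 1) - (n : ℝ) * (r - s) := by ring
        rw [e4]
        refine (abs_sub _ _).trans ?_
        rw [abs_mul, Nat.abs_cast]
        have e5 : |(n : ℝ) * r - 1| ≤ r := by
          rw [abs_le]
          constructor
          · linarith
          · linarith
        have e6 : (n : ℝ) * |r - s| ≤ 1 / ((m : ℝ) + 1) :=
          (mul_le_mul_of_nonneg_left hrs (Nat.cast_nonneg n)).trans hns
        linarith
      have h7 : |(n : ℝ) * s - 1| * ‖ρ (w.map x).prod‖ ≤ 5 / 2 * (1 / ((m : ℝ) + 1)) * 1 :=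
        mul_le_mul h6 h3 (norm_nonneg _) (by positivity)
      have e5 : 4 / ((m : ℝ) + 1) = 4 * (1 / ((m : ℝ) + 1)) := by ring
      rw [e5]
      have e6 : (0 : ℝ) < 1 / ((m : ℝ) + 1) := by positivity
      linarith
    have h5 : ‖ρ ((w.map Y).prod) - ρ ((w.map Y).prod * e)‖ ≤ √(2 / ((m : ℝ) + 1)) := by
      have e3 : ρ ((w.map Y).prod) - ρ ((w.map Y).prod * e) = ρ ((w.map Y).prod * (1 - e)) := by
        rw [mul_sub, mul_one, map_sub]
      rw [e3]
      have e4 : ‖TracialVN.tr ((w.map Y).prod * (1 - e))‖ ≤ n2 (w.map Y).prod * n2 (1 - e) := cs' _ _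
      refine e4.trans ?_
      have e5 : n2 (w.map Y).prod ≤ 1 := (n2_le_norm _).trans (norm_word_le hY2 w)
      have e6 : n2 (1 - e) ≤ √(2 / ((m : ℝ) + 1)) := by
        refine Real.le_sqrt_of_sq_le ?_
        rw [he.one_sub.n2_sq, rt_sub, rt_one, hre]
        have e7 : 2 / ((m : ℝ) + 1) = 2 * (1 / ((m : ℝ) + 1)) := by ring
        rw [e7]
        have e8 : (0 : ℝ) < 1 / ((m : ℝ) + 1) := by positivity
        linarith
      calc n2 (w.map Y).prod * n2 (1 - e) ≤ 1 * √(2 / ((m : ℝ) + 1)) :=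
            mul_le_mul e5 e6 (n2_nonneg _) zero_le_one
        _ = _ := one_mul _
    have e3 : ρ ((w.map Y).prod) - ρ (w.map x).prod = (ρ ((w.map Y).prod * e) - ρ (w.map x).prod) +
        (ρ ((w.map Y).prod) - ρ ((w.map Y).prod * e)) := by ring
    rw [e3]
    exact (norm_add_le _ _).trans (add_le_add h4 h5)

end Pool.Agent.H28.CR
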