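import Pool.Agent.H28.JP.Cen

set_option autoImplicit false

/-!
# CR: iteration of a corner embedding on tuples of projections
-/

universe u

open Filter Topology H80VN Pool.Agent.H68.Amp Pool.Agent.H28.JP

namespace Pool.Agent.H28.CR

variable {N : Type u} [CStarAlgebra N] {ρ : N →ₗ[ℂ] ℂ}

/-- Projections of the ultrapower lift to sequences of projections. -/
theorem lift_proj (h : Stmt.IsII1Factor ρ) (ω : Ultrafilter ℕ) (z : UPow (vn h) (ω : Filter ℕ))
    (hzs : star z = z) (hz : z * z = z) :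
    ∃ s : LInf N, UPow.mk (vn h) (ω : Filter ℕ) s = z ∧ ∀ k, Proj (s.seq k) := by
  let _ : TracialVN N := toTracialVN (vn h)
  have hM : IsFactor N := h.2.1
  have hinf := h.2.2
  obtain ⟨t, ht, -, -, -⟩ := exists_utr' (vn h) ω
  obtain ⟨b, rfl⟩ := UPow.mk_surjective (vn h) (ω : Filter ℕ) z
  obtain ⟨C, hC⟩ := b.2
  have hb1 : Tendsto (fun k => n2 (star (b.seq k) - b.seq k)) (ω : Filter ℕ) (𝓝 0) := by
    rw [UPow.star_mk, UPow.mk_eq] at hzs
    exact hzs
  have hb2 : Tendsto (fun k => n2 (b.seq k * b.seq k - b.seq k)) (ω : Filter ℕ) (𝓝 0) := by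
    rw [← map_mul, UPow.mk_eq] at hz
    exact hz
  have hb3 : Tendsto (fun k => rt (b.seq k)) (ω : Filter ℕ)
      (𝓝 (t (UPow.mk (vn h) (ω : Filter ℕ) b)).re) := (Complex.continuous_re.tendsto _).comp (ht b)
  obtain ⟨p, hp, hpb⟩ := exists_lift_proj hM hinf (ω := (ω : Filter ℕ)) hC hb1 hb2 hb3
  exact ⟨⟨p, 1, fun n => (hp n).1.norm_le⟩, (UPow.mk_eq (vn h) (ω : Filter ℕ)).2 hpb,
    fun k => (hp k).1⟩

theorem seq_prod (z : ℕ → LInf N) (w : List ℕ) (k : ℕ) :
    ((w.map z).prod).seq k = (w.map fun j => (z j).seq k).prod := by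
  induction w with
  | nil => rfl
  | cons j w ih =>
    rw [List.map_cons, List.prod_cons, List.map_cons, List.prod_cons, ← ih]
    rfl

theorem mk_prod (h : Stmt.IsTracialVN ρ) (ω : Filter ℕ) (θ : N →⋆ₙₐ[ℂ] UPow h ω) (y : ℕ → N)
    (z : ℕ → LInf N) (hz : ∀ j, UPow.mk h ω (z j) = θ (y j)) (w : List ℕ) (hw : w ≠ []) :
    UPow.mk h ω (w.map z).prod = θ (w.map y).prod := by
  induction w with
  | nil => exact absurd rfl hw
  | cons j w ih =>
    rw [List.map_cons, List.prod_cons, List.map_cons, List.prod_cons, map_mul, hz]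
    by_cases hw' : w = []
    · rw [hw']
      simp
    · rw [ih hw', map_mul θ]

theorem exists_iterate (h : Stmt.IsII1Factor ρ) (ω : Ultrafilter ℕ)
    (θ : N →⋆ₙₐ[ℂ] UPow (vn h) (ω : Filter ℕ)) {t : ℝ} (ht0 : 0 ≤ t) (ht1 : t ≤ 1)
    (hθ : ∀ (a : N) (s : LInf N), UPow.mk (vn h) (ω : Filter ℕ) s = θ a →
      Tendsto (fun k => ρ (s.seq k)) (ω : Filter ℕ) (𝓝 ((t : ℂ) * ρ a)))
    {x : ℕ → N} (hx : ∀ j, Proj (x j)) (k : ℕ) :
    ∀ (W : Finset (List ℕ)) (ε : ℝ), 0 < ε → ∃ y : ℕ → N, (∀ j, Proj (y j)) ∧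
      ∀ w ∈ W, w ≠ [] → ‖ρ ((w.map y).prod) - (t : ℂ) ^ k * ρ ((w.map x).prod)‖ ≤ ε := by
  induction k with
  | zero =>
    intro W ε hε
    refine ⟨x, hx, fun w _ _ => ?_⟩
    rw [pow_zero, one_mul, sub_self, norm_zero]
    exact hε.le
  | succ k ih =>
    intro W ε hε
    obtain ⟨y, hy, hyW⟩ := ih W (ε / 2) (by positivity)
    have hlift : ∀ j, ∃ s : LInf N, UPow.mk (vn h) (ω : Filter ℕ) s = θ (y j) ∧
        ∀ k, Proj (s.seq k) := fun j =>
      lift_proj h ω (θ (y j)) (by rw [← map_star, (hy j).star_eq])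
        (by rw [← map_mul, (hy j).mul_self])
    choose z hz hzp using hlift
    have h1 : ∀ᶠ m in (ω : Filter ℕ), ∀ w ∈ W, w ≠ [] →
        ‖ρ ((w.map fun j => (z j).seq m).prod) - (t : ℂ) * ρ ((w.map y).prod)‖ ≤ ε / 2 := by
      rw [Filter.eventually_all_finset]
      intro w _
      by_cases hw : w = []
      · exact Eventually.of_forall fun m hm => absurd hw hm
      · have h2 := hθ _ _ (mk_prod (vn h) (ω : Filter ℕ) θ y z hz w hw)
        have h3 := (Metric.tendsto_nhds.1 h2) (ε / 2) (by positivity)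
        filter_upwards [h3] with m hm _
        rw [dist_eq_norm, seq_prod] at hm
        exact hm.le
    obtain ⟨m, hm⟩ := h1.exists
    refine ⟨fun j => (z j).seq m, fun j => hzp j m, fun w hw hw0 => ?_⟩
    have h2 := hm w hw hw0
    have h3 := hyW w hw hw0
    have e1 : ρ ((w.map fun j => (z j).seq m).prod) - (t : ℂ) ^ (k + 1) * ρ ((w.map x).prod) =
        (ρ ((w.map fun j => (z j).seq m).prod) - (t : ℂ) * ρ ((w.map y).prod)) +
        (t : ℂ) * (ρ ((w.map y).prod) - (t : ℂ) ^ k * ρ ((w.map x).prod)) := by ring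
    rw [e1]
    refine (norm_add_le _ _).trans ?_
    rw [norm_mul, Complex.norm_real, Real.norm_eq_abs, abs_of_nonneg ht0]
    have h4 : t * ‖ρ ((w.map y).prod) - (t : ℂ) ^ k * ρ ((w.map x).prod)‖ ≤ 1 * (ε / 2) :=
      mul_le_mul ht1 h3 (norm_nonneg _) zero_le_one
    linarith

end Pool.Agent.H28.CR
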