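import Pool.Agent.H28.CR.Asm

set_option autoImplicit false

/-!
# CR: every nonzero ⋆-homomorphism into the ultrapower is inner
-/

universe u

open Filter Topology H80VN Pool.Agent.H68.Amp Pool.Agent.H28.JP

namespace Pool.Agent.H28.CR

variable {N : Type u} [CStarAlgebra N] {ρ : N →ₗ[ℂ] ℂ}

theorem all_unital (h : Stmt.IsII1Factor ρ) (hsep : Stmt.Separable ρ)
    (ω : Ultrafilter ℕ) (hω : (ω : Filter ℕ) ≤ cofinite)
    (hI : AllIrreducible (vn h) (ω : Filter ℕ)) : AllUnital (vn h) (ω : Filter ℕ) := by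
  intro θ hne
  have hω' : (ω : Filter ℕ) ≤ atTop := hω.trans Nat.cofinite_eq_atTop.le
  obtain ⟨tN, htN, ht1, htc, htp⟩ := exists_utr' (vn h) ω
  have hf : ∀ a, (tN (star a * a)).re = 0 → a = 0 := fun a ha =>
    Pool.Agent.H28.JT.utr_faithful (vn h) (ω : Filter ℕ) tN htN a ha
  -- the projection
  set e : UPow (vn h) (ω : Filter ℕ) := θ 1 with he
  have hes : star e = e := by rw [he, ← map_star, star_one]
  have hee : e * e = e := by rw [he, ← map_mul, one_mul]
  have h1e : star (1 - e) * (1 - e) = 1 - e := by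
    rw [star_sub, star_one, hes]
    calc (1 - e) * (1 - e) = 1 - e - e + e * e := by noncomm_ring
      _ = 1 - e := by rw [hee]; abel
  obtain ⟨r, hr0, hr⟩ := htp e
  rw [hes, hee] at hr
  -- the trace
  have htr : ∀ a, tN (θ a) = (r : ℂ) * ρ a := by
    intro a
    have h2 := unique_trace h (tN ∘ₗ ({
        toFun := θ
        map_add' := map_add θ
        map_smul' := fun c x => map_smul θ c x } : N →ₗ[ℂ] UPow (vn h) (ω : Filter ℕ)))
      (fun a b => by
        show tN (θ (a * b)) = tN (θ (b * a))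
        rw [map_mul θ, map_mul θ, htc])
      (fun a => by
        show ∃ r : ℝ, 0 ≤ r ∧ tN (θ (star a * a)) = r
        rw [map_mul, map_star]
        exact htp _) a
    have h3 : tN (θ a) = tN (θ 1) * ρ a := h2
    rw [h3, ← he, hr]
  have hrne : r ≠ 0 := by
    intro hr0'
    have h1 : e = 0 := hf e (by rw [hes, hee, hr, hr0', Complex.ofReal_zero, Complex.zero_re])
    obtain ⟨x, hx⟩ := hne
    apply hx
    have h2 : θ x = θ 1 * θ x := by rw [← map_mul, one_mul]
    rw [h2, ← he, h1, zero_mul]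
  have hrpos : 0 < r := lt_of_le_of_ne hr0 (Ne.symm hrne)
  have hr1 : r ≤ 1 := by
    obtain ⟨q, hq0, hq⟩ := htp (1 - e)
    rw [h1e, map_sub, ht1, hr] at hq
    have e2 := congrArg Complex.re hq
    rw [Complex.sub_re, Complex.one_re, Complex.ofReal_re, Complex.ofReal_re] at e2
    linarith
  rcases hr1.lt_or_eq with hlt | heq
  · -- a proper corner: contradiction
    exfalso
    obtain ⟨π, p, hp, hpt, hpc⟩ := exists_split h hsep ω hω' θ hrpos hlt (fun a s hs => by
      rw [← htr a, ← hs]
      exact htN s)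
    obtain ⟨c, hc⟩ := hI π (UPow.mk (vn h) (ω : Filter ℕ) p) hpc
    have h1 : (tN (UPow.mk (vn h) (ω : Filter ℕ) p)).re = 1 / 2 :=
      tendsto_nhds_unique ((Complex.continuous_re.tendsto _).comp (htN p)) hpt
    have h2 : c.re = 1 / 2 := by
      rw [hc, map_smul, ht1, smul_eq_mul, mul_one] at h1
      exact h1
    have h3 : UPow.mk (vn h) (ω : Filter ℕ) p * UPow.mk (vn h) (ω : Filter ℕ) p =
        UPow.mk (vn h) (ω : Filter ℕ) p := by
      rw [← map_mul]
      exact congrArg _ (LInf.ext' fun k => (hp k).mul_self)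
    have h4 : c * c = c := by
      rw [hc, smul_mul_smul_comm, one_mul] at h3
      have h5 := congrArg tN h3
      rw [map_smul, map_smul, ht1, smul_eq_mul, smul_eq_mul, mul_one, mul_one] at h5
      exact h5
    have h5 : c * (c - 1) = 0 := by rw [mul_sub, mul_one, h4, sub_self]
    rcases mul_eq_zero.1 h5 with h6 | h6
    · rw [h6, Complex.zero_re] at h2
      norm_num at h2
    · rw [sub_eq_zero.1 h6, Complex.one_re] at h2
      norm_num at h2
  · -- the unital case
    have e2 : 1 - e = 0 := hf (1 - e) (by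
      rw [h1e, map_sub, ht1, hr, heq, Complex.ofReal_one, sub_self, Complex.zero_re])
    exact (sub_eq_zero.1 e2).symm

theorem all_conj (h : Stmt.IsII1Factor ρ) (hsep : Stmt.Separable ρ) (hG : ¬ Stmt.Gamma ρ)
    (ω : Ultrafilter ℕ) (hω : (ω : Filter ℕ) ≤ cofinite)
    (hJ : JungProperty (vn h) (ω : Filter ℕ)) : AllConj (vn h) (ω : Filter ℕ) := by
  intro θ hne
  have h1 : θ 1 = 1 := all_unital h hsep ω hω (comm_part h ω hJ hG) θ hne
  let θ' : N →⋆ₐ[ℂ] UPow (vn h) (ω : Filter ℕ) :=
    { toFun := θ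
      map_one' := h1
      map_mul' := map_mul θ
      map_zero' := map_zero θ
      map_add' := map_add θ
      commutes' := fun c => by
        show θ (algebraMap ℂ N c) = algebraMap ℂ (UPow (vn h) (ω : Filter ℕ)) c
        rw [Algebra.algebraMap_eq_smul_one, map_smul, h1, Algebra.algebraMap_eq_smul_one]
      map_star' := map_star θ }
  obtain ⟨u, hu, hux⟩ := hJ (diag (vn h) (ω : Filter ℕ)) θ' (tracePres h ω _) (tracePres h ω _)
  exact ⟨u, hu, hux⟩

end Pool.Agent.H28.CR
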